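import Pool.Agent.Helper89.OS.St1

/-!
# Project OS (MP_2b6189_al), module XE: the fusion ring
-/

set_option autoImplicit false

namespace Pool.Agent.Helper13.OS

open Matrix ComplexConjugate Pool.Agent.Helper94.YF Pool.Agent.Helper94.YG Pool.Agent.Helper89.OS

section

variable {I : Type} [Fintype I] [DecidableEq I]

lemma xe_so_ne (Z : CentreRep I) (t : I) : Z.rho Sm Z.o t ≠ 0 := by
  rw [Z.s_o]
  have h1 : (Z.d t : ℂ) ≠ 0 := Nat.cast_ne_zero.2 (Z.d_pos t).ne'
  have h2 : (Z.n : ℂ) ≠ 0 := Nat.cast_ne_zero.2 Z.n_pos.ne'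
  exact div_ne_zero h1 h2

lemma xe_so_conj (Z : CentreRep I) (t : I) :
    conj (Z.rho Sm Z.o t) = Z.rho Sm Z.o t := by
  rw [Z.s_o]
  simp

lemma xe_nu_mul (Z : CentreRep I) (t V j : I) :
    (Z.rho Sm V t / Z.rho Sm Z.o t) * Z.rho Sm j t = ∑ k, (Z.N V j k : ℂ) * Z.rho Sm k t := by
  have h0 := xe_so_ne Z t
  have hv := Z.verlinde V j t
  rw [div_mul_eq_mul_div, hv, mul_div_assoc, mul_comm, div_mul_cancel₀ _ h0]

lemma xe_nu_int (Z : CentreRep I) (t V : I) :
    IsIntegral ℤ (Z.rho Sm V t / Z.rho Sm Z.o t) := by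
  have h0 := xe_so_ne Z t
  refine isIntegral_of_smul_mem_submodule (M := ℂ)
    (Submodule.span ℤ (Set.range fun j => Z.rho Sm j t)) ?_
    (Submodule.fg_span (Set.finite_range _)) _ ?_
  · intro h
    rw [Submodule.span_eq_bot] at h
    exact h0 (h _ ⟨Z.o, rfl⟩)
  · intro x hx
    induction hx using Submodule.span_induction with
    | mem x hx =>
      obtain ⟨j, rfl⟩ := hx
      simp only [smul_eq_mul]
      rw [xe_nu_mul]
      refine Submodule.sum_mem _ fun k _ => ?_
      have : (Z.N V j k : ℂ) * Z.rho Sm k t = ((Z.N V j k : ℤ)) • Z.rho Sm k t := by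
        rw [zsmul_eq_mul]; simp
      rw [this]
      exact Submodule.smul_mem _ _ (Submodule.subset_span ⟨k, rfl⟩)
    | zero => simp
    | add x y _ _ hx hy => rw [smul_add]; exact Submodule.add_mem _ hx hy
    | smul n x _ hx =>
      rw [smul_comm]
      exact Submodule.smul_mem _ _ hx

lemma xe_conj_int {z : ℂ} (h : IsIntegral ℤ (conj z)) : IsIntegral ℤ z := by
  have := h.map (starRingEnd ℂ).toIntAlgHom
  simpa using this

lemma xe_uni' (Z : CentreRep I) (g : SL Z.L) : Z.rho g * (Z.rho g)ᴴ = 1 :=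
  mul_eq_one_comm.mp (Z.unitary g)

end

/-- **OS MODULE XE** -/
theorem hXE : StXE := by
  intro hFUS hDUA hGRP hENT I _ _ Z p a m b j tu Pi y z hC
  have hbb : b * b = b := hC.idp.idem
  obtain ⟨g1, g2, -, -, -, g6, -⟩ := hGRP Z.L (p ^ a) b j tu hbb hC.jh hC.tu_val hC.tu_mul
  obtain ⟨hUd, -⟩ := hFUS hDUA I Z.toCentreRep
  obtain ⟨hBs, -⟩ := hENT hFUS hDUA I Z.toCentreRep b
  obtain ⟨hAs, hAint⟩ := hENT hFUS hDUA I Z.toCentreRep (1 - b)
  have hAi := hAint m z hC.zz
  have hn : (Z.n : ℂ) = (p : ℂ) * m := by rw [hC.n_eq]; push_cast; rfl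
  have hn0 : (Z.n : ℂ) ≠ 0 := Nat.cast_ne_zero.2 Z.n_pos.ne'
  have hp0 : (p : ℂ) ≠ 0 := Nat.cast_ne_zero.2 hC.prime.ne_zero
  have hd0 : ∀ l, (Z.d l : ℂ) ≠ 0 := fun l => Nat.cast_ne_zero.2 (Z.d_pos l).ne'
  have hS0 : ∀ l, Z.rho Sm Z.o l ≠ 0 := fun l => xe_so_ne Z.toCentreRep l
  obtain ⟨A, hA⟩ : ∃ A : Matrix I I ℂ, A = Z.rho (s2 (1 - b)) := ⟨_, rfl⟩
  obtain ⟨B, hB⟩ : ∃ B : Matrix I I ℂ, B = Z.rho (s2 b) := ⟨_, rfl⟩
  have hSAB : Z.rho Sm = A * B := by rw [hA, hB, ← map_mul, g2]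
  have hAA : Aᴴ * A = 1 := by rw [hA]; exact Z.unitary _
  have hBB : B * Bᴴ = 1 := by rw [hB]; exact xe_uni' Z.toCentreRep _
  have hSS : (Z.rho Sm)ᴴ * Z.rho Sm = 1 := Z.unitary _
  have hAS : Aᴴ * Z.rho Sm = B := by rw [hSAB, ← Matrix.mul_assoc, hAA, Matrix.one_mul]
  have hSB : Z.rho Sm * Bᴴ = A := by rw [hSAB, Matrix.mul_assoc, hBB, Matrix.mul_one]
  rw [← hB] at hBs
  rw [← hA] at hAs hAi
  refine ⟨?_, ?_, ?_, ?_, ?_, ?_, ?_⟩
  · intro i k
    exact xe_nu_int Z.toCentreRep i k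
  · intro i
    exact div_self (hS0 i)
  · intro k
    unfold Cchi
    rw [Z.s_symm k Z.o, Z.s_o, Z.s_o, Z.d_o]
    field_simp
    simp
  · intro i k l
    unfold Cchi
    have h := Z.verlinde k l i
    have h1 : ∑ v, (Z.N k l v : ℂ) * (Z.rho Sm v i / Z.rho Sm Z.o i)
        = (∑ v, (Z.N k l v : ℂ) * Z.rho Sm v i) / Z.rho Sm Z.o i := by
      rw [Finset.sum_div]
      exact Finset.sum_congr rfl fun v _ => by rw [mul_div_assoc]
    rw [h1, div_mul_div_comm, h, mul_div_mul_left _ _ (hS0 i)]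
  · refine ⟨fun i k => (m : ℂ) * conj (A k i), fun i k => (hAi k i).2, ?_⟩
    intro i l
    have h1 : ∑ k, (m : ℂ) * conj (A k i) * Cchi Z l k = (m : ℂ) / Z.rho Sm Z.o l * B i l := by
      have h2 : B i l = ∑ k, conj (A k i) * Z.rho Sm k l := by
        conv_lhs => rw [← hAS]
        rw [Matrix.mul_apply]
        exact Finset.sum_congr rfl fun k _ => by rw [Matrix.conjTranspose_apply]; rfl
      rw [h2, Finset.mul_sum]
      refine Finset.sum_congr rfl fun k _ => ?_
      unfold Cchi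
      field_simp
    rw [h1, ← hB, hBs l i, Z.s_o, hn]
    have := hd0 l
    have hm : (p : ℂ) * m ≠ 0 := by rw [← hn]; exact hn0
    field_simp
  · intro k i i'
    refine xe_conj_int ?_
    -- the matrix with natural entries
    obtain ⟨N', hN'⟩ : ∃ N' : Matrix I I ℂ,
        N' = Matrix.of fun u v => (Z.N u (Z.st k) v : ℂ) := ⟨_, rfl⟩
    obtain ⟨D, hD⟩ : ∃ D : Matrix I I ℂ, D = Matrix.diagonal fun l => Cchi Z l (Z.st k) := ⟨_, rfl⟩
    have hSD : Z.rho Sm * D = N' * Z.rho Sm := by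
      ext u l
      rw [hD, Matrix.mul_diagonal, hN', Matrix.mul_apply]
      simp only [Matrix.of_apply]
      unfold Cchi
      have h := Z.verlinde u (Z.st k) l
      rw [← mul_div_assoc, h, mul_div_assoc, mul_comm, div_mul_cancel₀ _ (hS0 l)]
    have hDS : D = (Z.rho Sm)ᴴ * N' * Z.rho Sm := by
      rw [Matrix.mul_assoc, ← hSD, ← Matrix.mul_assoc, hSS, Matrix.one_mul]
    have hBS : B * (Z.rho Sm)ᴴ = Aᴴ := by
      rw [← hSB, Matrix.conjTranspose_mul, Matrix.conjTranspose_conjTranspose]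
    have hBDB : B * D * Bᴴ = Aᴴ * N' * A := by
      calc B * D * Bᴴ = (B * (Z.rho Sm)ᴴ) * N' * (Z.rho Sm * Bᴴ) := by
            rw [hDS]; simp only [Matrix.mul_assoc]
        _ = _ := by rw [hBS, hSB]
    have hcc : ∀ l, conj (Cchi Z l k) = Cchi Z l (Z.st k) := by
      intro l
      unfold Cchi
      rw [map_div₀, Z.s_dual k l]
      congr 1
      exact xe_so_conj Z.toCentreRep l
    have hnum : conj ((m : ℂ) ^ 2 / (p : ℂ) ^ 2 * ∑ l, conj ((p : ℂ) * Z.rho (s2 b) l i) *
        Cchi Z l k * ((p : ℂ) * Z.rho (s2 b) l i')) = (m : ℂ) ^ 2 * (B * D * Bᴴ) i i' := by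
      have h1 : (B * D * Bᴴ) i i' = ∑ l, B l i * Cchi Z l (Z.st k) * conj (B l i') := by
        rw [Matrix.mul_apply]
        refine Finset.sum_congr rfl fun l _ => ?_
        rw [hD, Matrix.mul_diagonal, Matrix.conjTranspose_apply, hBs i l, hBs i' l]
        rfl
      rw [h1, ← hB, map_mul, map_sum, Finset.mul_sum, Finset.mul_sum]
      refine Finset.sum_congr rfl fun l _ => ?_
      simp only [map_mul, map_div₀, map_pow, Complex.conj_natCast, Complex.conj_conj, hcc]
      field_simp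
    rw [hnum, hBDB]
    have h2 : (m : ℂ) ^ 2 * (Aᴴ * N' * A) i i' =
        ∑ v, (∑ u, (m : ℂ) * conj (A u i) * (Z.N u (Z.st k) v : ℂ)) * ((m : ℂ) * A v i') := by
      rw [Matrix.mul_apply, Finset.mul_sum]
      refine Finset.sum_congr rfl fun v _ => ?_
      rw [Matrix.mul_apply, Finset.sum_mul, Finset.mul_sum, Finset.sum_mul]
      refine Finset.sum_congr rfl fun u _ => ?_
      rw [Matrix.conjTranspose_apply, hN']
      have : star (A u i) = conj (A u i) := rfl
      rw [this, Matrix.of_apply]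
      ring
    rw [h2]
    refine IsIntegral.sum _ fun v _ => IsIntegral.mul (IsIntegral.sum _ fun u _ =>
      IsIntegral.mul (hAi u i).2 ?_) (hAi v i').1
    have h3 : IsIntegral ℤ (algebraMap ℤ ℂ ((Z.N u (Z.st k) v : ℕ) : ℤ)) :=
      isIntegral_algebraMap
    simpa using h3
  · intro E hE hEt l hl
    have hBE : ∀ i, ∑ k, B i k * E k = E i := by
      intro i
      have h := hE i
      rw [← hB] at h
      have h1 : ∑ k, (p : ℂ) * B i k * E k = (p : ℂ) * ∑ k, B i k * E k := by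
        rw [Finset.mul_sum]
        exact Finset.sum_congr rfl fun k _ => by ring
      rw [h1] at h
      exact mul_left_cancel₀ hp0 h
    have hcomm : ∀ u v, Z.tw b u * A u v = A u v * Z.tw b v := by
      intro u v
      have h := congrArg Z.rho g6
      rw [map_mul, map_mul, hUd, ← hA] at h
      have h' := congrFun (congrFun h u) v
      rw [Matrix.diagonal_mul, Matrix.mul_diagonal] at h'
      exact h'
    have hAE : ∑ k, A l k * E k = 0 := by
      have h1 : Z.tw b l * ∑ k, A l k * E k = ∑ k, A l k * E k := by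
        rw [Finset.mul_sum]
        refine Finset.sum_congr rfl fun k _ => ?_
        rw [← mul_assoc, hcomm]
        by_cases hk : E k = 0
        · rw [hk]; ring
        · rw [hEt k hk]; ring
      have h2 : (Z.tw b l - 1) * ∑ k, A l k * E k = 0 := by rw [sub_mul, h1]; ring
      rcases mul_eq_zero.mp h2 with h | h
      · exact absurd (sub_eq_zero.mp h) hl
      · exact h
    have hSE : ∑ k, Z.rho Sm l k * E k = 0 := by
      have h1 : ∀ k, Z.rho Sm l k = ∑ v, A l v * B v k := by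
        intro k
        rw [hSAB, Matrix.mul_apply]
      simp only [h1, Finset.sum_mul]
      rw [Finset.sum_comm]
      have h2 : ∀ v, ∑ k, A l v * B v k * E k = A l v * E v := by
        intro v
        have : ∑ k, A l v * B v k * E k = A l v * ∑ k, B v k * E k := by
          rw [Finset.mul_sum]
          exact Finset.sum_congr rfl fun k _ => by ring
        rw [this, hBE]
      simp only [h2]
      exact hAE
    have h3 : ∑ k, E k * Cchi Z l k = (∑ k, Z.rho Sm l k * E k) / Z.rho Sm Z.o l := by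
      rw [Finset.sum_div]
      refine Finset.sum_congr rfl fun k _ => ?_
      unfold Cchi
      rw [Z.s_symm k l]
      ring
    rw [h3, hSE, zero_div]

end Pool.Agent.Helper13.OS
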